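import Pool.Agent.H77.BD.Targets

/-!
# The theorem

Row FIN of the page `H77_BDE.md`.
-/

set_option autoImplicit false

open Set Matrix Pool.Agent.H77.BC Pool.Agent.H77.BD

namespace Pool.Agent.H12.BCT

/-- FIN: the theorem. -/
theorem pf_FIN (hRKA : ∀ {M : Type} (U : RU M), RKA U) (hRKS : ∀ {M : Type} (U : RU M), RKS U)
    (hGTR : GTR) (hCNT : T_CNT) (hBRC : T_BRC) (hCDC : T_CDC) (hCDT : T_CDT)
    (hFLD : ∀ {M : Type} (U : RU M), T_FLD U) (hLOW : ∀ {M : Type} (U : RU M), T_LOW U)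
    (hUPR : ∀ {M : Type} (U : RU M), T_UPR U) (hSTB : T_STB) : T_FIN := by
  intro l C hC hl F _ _ G S _ _ U hPG htr hfa hiso
  obtain ⟨e0⟩ := hiso
  obtain ⟨k0, hk0⟩ := hCNT hC
  haveI : Infinite F := IsAlgClosed.instInfinite
  obtain ⟨x0, τ0, hCD0⟩ := hCDC hC hl (F := F)
  have hCD := hCDT e0.symm x0 τ0 hCD0
  haveI := hPG.ful
  haveI := hPG.dg
  obtain ⟨c, hDF, hx⟩ := hFLD U hC hl hCD
  letI := c
  haveI := hDF
  obtain ⟨hf1, -, -⟩ := hRKS U (K := F)
  have hupr := hUPR U hC hCD hx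
  -- a point whose stabilizer is not everything
  have hs : ∃ s : S, (MulAction.stabilizer G s) ≠ ⊤ := by
    by_contra hcon
    push Not at hcon
    have htriv : ∀ g h : G, g = h := by
      intro g h
      apply hfa.eq_of_smul_eq_smul
      intro s
      have h1 : g ∈ MulAction.stabilizer G s := by rw [hcon s]; trivial
      have h2 : h ∈ MulAction.stabilizer G s := by rw [hcon s]; trivial
      rw [MulAction.mem_stabilizer_iff] at h1 h2
      rw [h1, h2]
    have i0 : Fin l := ⟨0, by omega⟩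
    have h3 := hCD.inj (sr hC i0) (1 : F) 0 (htriv _ _)
    exact one_ne_zero h3
  obtain ⟨s, hs⟩ := hs
  obtain ⟨hsD, hsR⟩ := hSTB U hPG htr s
  have hlow := hLOW U hC hl hCD hx k0 hk0 _ hsD hs
  have hcard := hk0.2
  set f : ℕ := U.R (univ : Set F) with hf
  set n : ℕ := U.R (univ : Set S) with hn
  set r : ℕ := U.R (univ : Set G) with hr
  set a : ℕ := U.R ((MulAction.stabilizer G s : Subgroup G) : Set G) with ha
  have hkf : (k0 + 1) * f ≤ n := by omega
  have hkn : k0 + 1 ≤ n := by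
    calc k0 + 1 = (k0 + 1) * 1 := by ring
      _ ≤ (k0 + 1) * f := Nat.mul_le_mul_left _ hf1
      _ ≤ n := hkf
  have hmain : (k0 + 1) * r ≤ l * (k0 + 1 + 2) * n := by
    calc (k0 + 1) * r ≤ (k0 + 1) * ((Nat.card (Root C) + l) * f) := Nat.mul_le_mul_left _ hupr
      _ = l * (k0 + 1 + 2) * ((k0 + 1) * f) := by rw [hcard]; ring
      _ ≤ l * (k0 + 1 + 2) * n := Nat.mul_le_mul_left _ hkf
  refine ⟨k0 + 1, by rw [hcard], hkn, hmain, ?_⟩
  intro hBr
  have hlk := hBRC hC hBr k0 hk0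
  have key : ¬ n * (n + 2) ≤ r := by
    intro hle
    have h1 : (k0 + 1) * (n + 2) * n ≤ l * (k0 + 1 + 2) * n := by
      calc (k0 + 1) * (n + 2) * n = (k0 + 1) * (n * (n + 2)) := by ring
        _ ≤ (k0 + 1) * r := Nat.mul_le_mul_left _ hle
        _ ≤ _ := hmain
    have h2 : (k0 + 1) * (n + 2) ≤ l * (k0 + 1 + 2) :=
      Nat.le_of_mul_le_mul_right h1 (by omega)
    have h3 : (k0 + 1) * (k0 + 1 + 2) ≤ l * (k0 + 1 + 2) :=
      le_trans (Nat.mul_le_mul_left _ (by omega)) h2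
    have h4 : k0 + 1 ≤ l := Nat.le_of_mul_le_mul_right h3 (by omega)
    omega
  refine ⟨not_le.mp key, ?_⟩
  intro hG
  have h1 := hGTR U hPG (n + 2) hG
  apply key
  calc n * (n + 2) = (n + 2) * n := by ring
    _ ≤ r := h1

end Pool.Agent.H12.BCT
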