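import Pool.Agent.H12.BCT.UIA

/-!
# The big cell and the simple root elements

Row OMB of the page `H77_BDE.md`.
-/

set_option autoImplicit false

open Set Matrix Pool.Agent.H77.BC Pool.Agent.H77.BD

namespace Pool.Agent.H12.BCT

/-- the simple roots are positive -/
theorem pos_sr {l : ℕ} {C : Matrix (Fin l) (Fin l) ℤ} (hC : Cartan C) (i : Fin l) :
    IsPos (sr hC i) := by
  intro j
  rw [sr_val]
  unfold si
  by_cases hj : j = i
  · subst hj; simp
  · rw [Pi.single_eq_of_ne hj]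

theorem neg_sr {l : ℕ} {C : Matrix (Fin l) (Fin l) ℤ} (hC : Cartan C) (i : Fin l) :
    IsNeg (ng (sr hC i)) := by
  intro j
  have := pos_sr hC i j
  rw [ng_val, Pi.neg_apply]
  omega

theorem Ug_mono {l : ℕ} {C : Matrix (Fin l) (Fin l) ℤ} {F Γ : Type} [Group Γ]
    (x : Root C → F → Γ) {p q : Root C → Prop} (h : ∀ β, p β → q β) : Ug x p ≤ Ug x q := by
  apply Subgroup.closure_mono
  rintro g ⟨β, t, hp, rfl⟩
  exact ⟨β, t, h β hp, rfl⟩

theorem x_mem_Ug {l : ℕ} {C : Matrix (Fin l) (Fin l) ℤ} {F Γ : Type} [Group Γ]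
    (x : Root C → F → Γ) {p : Root C → Prop} {β : Root C} (h : p β) (t : F) : x β t ∈ Ug x p :=
  Subgroup.subset_closure ⟨β, t, h, rfl⟩

/-- OMB: the big cell and the simple root elements. -/
theorem pf_OMB (hUIA : T_UIA) (hUIC : T_UIC) : T_OMB := by
  intro l C hC F Γ _ _ x τ h i t z hz
  obtain ⟨v, hv, c, u, hu, rfl⟩ := hz
  refine ⟨⟨v, hv, c, u * x (sr hC i) t, Subgroup.mul_mem _ hu (x_mem_Ug x (pos_sr hC i) t), by
    group⟩, ?_⟩
  obtain ⟨u', hu', s, rfl⟩ := (hUIA hC h i).1 u hu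
  by_cases hst : 1 - s * t = 0
  · exact Or.inr ⟨s, hst, v, hv, c, u', hu', rfl⟩
  · left
    set d : Fˣ := Units.mk0 (1 - s * t) hst with hd
    have hsl := h.slt i (sr hC i) (ng (sr hC i)) rfl rfl s t d (by rw [hd]; rfl)
    have h1 := (hUIA hC h i).2 u' hu' (-(t / (d : F)))
    rw [neg_neg, ← x_inv h] at h1
    have h2 := hUIC h _ (Pi.mulSingle i d)⁻¹ _ h1
    rw [map_inv] at h2
    have h3 := hUIC h IsNeg c _ (x_mem_Ug x (neg_sr hC i) (t / (d : F)))
    refine ⟨v * (τ c * x (ng (sr hC i)) (t / (d : F)) * (τ c)⁻¹), Subgroup.mul_mem _ hv h3,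
      c * Pi.mulSingle i d, _, Subgroup.mul_mem _ (Ug_mono x (fun β hβ => hβ.1) h2)
        (x_mem_Ug x (pos_sr hC i) (s / (d : F))), ?_⟩
    rw [map_mul]
    have e1 : v * τ c * (u' * x (sr hC i) s) * x (ng (sr hC i)) t =
      v * τ c * u' * (x (sr hC i) s * x (ng (sr hC i)) t) := by group
    rw [e1, hsl]
    group

end Pool.Agent.H12.BCT
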