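import Pool.Agent.H12.BCT.OMB

/-!
# The rank of the big cell

Row OMD of the page `H77_BDE.md`.
-/

set_option autoImplicit false

open Set Matrix Pool.Agent.H77.BC Pool.Agent.H77.BD

namespace Pool.Agent.H12.BCT

/-- OMD: the rank of the big cell. -/
theorem pf_OMD {M : Type} (U : RU M) (hRKB : RKB U) (hUIC : T_UIC) (hUPN : T_UPN U)
    (hTRK : T_TRK U) : T_OMD U := by
  intro l C hC F Γ _ _ _ _ _ _ _ x τ h hx
  obtain ⟨hP, hN, -, -⟩ := hUPN hC h hx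
  obtain ⟨hT, -⟩ := hTRK hC h hx
  have himg : Om x τ = (fun p : (Γ × Γ) × Γ => p.1.1 * p.1.2 * p.2) ''
      (((Ug x IsNeg : Set Γ) ×ˢ (range τ : Set Γ)) ×ˢ (Ug x IsPos : Set Γ)) := by
    ext g
    constructor
    · rintro ⟨v, hv, c, u, hu, rfl⟩
      exact ⟨((v, τ c), u), ⟨⟨hv, ⟨c, rfl⟩⟩, hu⟩, rfl⟩
    · rintro ⟨⟨⟨v, t⟩, u⟩, ⟨⟨hv, ⟨c, hc⟩⟩, hu⟩, rfl⟩
      have hc' : τ c = t := hc
      exact ⟨v, hv, c, u, hu, by rw [hc']⟩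
  have hf : DFn U (fun p : (Γ × Γ) × Γ => p.1.1 * p.1.2 * p.2) := by
    refine DFn_gmul (DFn_gmul ?_ ?_) DFn_snd
    · exact DFn_comp (f := fun p : (Γ × Γ) × Γ => p.1) (g := fun q : Γ × Γ => q.1) DFn_fst DFn_fst
    · exact DFn_comp (f := fun p : (Γ × Γ) × Γ => p.1) (g := fun q : Γ × Γ => q.2) DFn_snd DFn_fst
  have hD : U.D (((Ug x IsNeg : Set Γ) ×ˢ (range τ : Set Γ)) ×ˢ (Ug x IsPos : Set Γ)) :=
    D_prod (D_prod hN hT) hP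
  have nN : (Ug x IsNeg : Set Γ).Nonempty := ⟨1, Subgroup.one_mem _⟩
  have nP : (Ug x IsPos : Set Γ).Nonempty := ⟨1, Subgroup.one_mem _⟩
  have nT : (range τ : Set Γ).Nonempty := ⟨τ 1, ⟨1, rfl⟩⟩
  have hinj : InjOn (fun p : (Γ × Γ) × Γ => p.1.1 * p.1.2 * p.2)
      (((Ug x IsNeg : Set Γ) ×ˢ (range τ : Set Γ)) ×ˢ (Ug x IsPos : Set Γ)) := by
    rintro ⟨⟨v, t⟩, u⟩ ⟨⟨hv, ⟨c, hc⟩⟩, hu⟩ ⟨⟨v', t'⟩, u'⟩ ⟨⟨hv', ⟨c', hc'⟩⟩, hu'⟩ he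
    have hc1 : τ c = t := hc
    have hc2 : τ c' = t' := hc'
    have he' : v * t * u = v' * t' * u' := he
    subst hc1
    subst hc2
    have hv1 : v ∈ Ug x IsNeg := hv
    have hv2 : v' ∈ Ug x IsNeg := hv'
    have hu1 : u ∈ Ug x IsPos := hu
    have hu2 : u' ∈ Ug x IsPos := hu'
    have h1 := hUIC h IsPos c' _ (Subgroup.mul_mem _ hu1 (Subgroup.inv_mem _ hu2))
    have h2 : (v'⁻¹ * v) * τ (c * c'⁻¹) * (τ c' * (u * u'⁻¹) * (τ c')⁻¹) = 1 := by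
      rw [map_mul, map_inv]
      have e1 : (v'⁻¹ * v) * (τ c * (τ c')⁻¹) * (τ c' * (u * u'⁻¹) * (τ c')⁻¹) =
        v'⁻¹ * (v * τ c * u) * u'⁻¹ * (τ c')⁻¹ := by group
      rw [e1, he']
      group
    obtain ⟨r1, r2, r3⟩ := h.tri _ (Subgroup.mul_mem _ (Subgroup.inv_mem _ hv2) hv1) _ _ h1 h2
    have s1 : v = v' := (inv_mul_eq_one.mp r1).symm
    have s2 : τ c = τ c' := by
      rw [map_mul, map_inv] at r2
      exact mul_inv_eq_one.mp r2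
    have s3 : u = u' := by
      subst s1
      rw [s2] at he'
      exact mul_left_cancel he'
    rw [s1, s2, s3]
  rw [himg]
  refine ⟨DFn_image hf hD, ?_⟩
  rw [hRKB.inj hD hf ((nN.prod nT).prod nP) hinj, hRKB.prod (D_prod hN hT) hP (nN.prod nT) nP,
    hRKB.prod hN hT nN nT]

end Pool.Agent.H12.BCT
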