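import Pool.Agent.H77.BD.Targets

/-!
# One root of each pair

Row PRS of the page `H77_BDE.md`.
-/

set_option autoImplicit false

open Set Matrix Pool.Agent.H77.BC Pool.Agent.H77.BD

namespace Pool.Agent.H12.BCT

/-- one half of a finite set with a fixed point free involution -/
theorem half {S : Type} [Finite S] (k : ℕ) (hk : Nat.card S = 2 * k) (f : S → S)
    (hf : ∀ x, f (f x) = x) (hn : ∀ x, f x ≠ x) :
    ∃ p : Fin k → S, Function.Injective p ∧ ∀ i j, p i ≠ f (p j) := by
  classical
  haveI : Fintype S := Fintype.ofFinite S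
  have e : S ≃ Fin (Fintype.card S) := Fintype.equivFin S
  set T : Finset S := Finset.univ.filter (fun x => e x < e (f x)) with hT
  set T' : Finset S := Finset.univ.filter (fun x => ¬ e x < e (f x)) with hT'
  have h1 : T.card + T'.card = 2 * k := by
    rw [hT, hT', Finset.card_filter_add_card_filter_not, Finset.card_univ,
      ← Nat.card_eq_fintype_card, hk]
  have hinj : Function.Injective f := by
    intro a b h
    rw [← hf a, ← hf b, h]
  have h2 : T.image f = T' := by
    ext x
    simp only [hT, hT', Finset.mem_image, Finset.mem_filter, Finset.mem_univ, true_and, not_lt]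
    constructor
    · rintro ⟨a, ha, rfl⟩
      rw [hf]
      exact ha.le
    · intro hx
      refine ⟨f x, ?_, hf x⟩
      rw [hf]
      refine lt_of_le_of_ne hx ?_
      intro he
      exact hn x (e.injective he)
  have h3 : T.card = k := by
    have h4 : T'.card = T.card := by rw [← h2, Finset.card_image_of_injective _ hinj]
    omega
  have hmem : ∀ i : Fin k, e ((T.equivFinOfCardEq h3).symm i).1 <
      e (f ((T.equivFinOfCardEq h3).symm i).1) := by
    intro i
    have h5 := ((T.equivFinOfCardEq h3).symm i).2
    exact (Finset.mem_filter.mp h5).2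
  refine ⟨fun i => ((T.equivFinOfCardEq h3).symm i).1, ?_, ?_⟩
  · intro i j h
    exact (T.equivFinOfCardEq h3).symm.injective (Subtype.ext h)
  · intro i j h
    have h6 := hmem i
    have h7 := hmem j
    simp only at h
    rw [h, hf] at h6
    exact lt_asymm h6 h7

/-- PRS: one root of each pair `β, γ - β`. -/
theorem pf_PRS : T_PRS := by
  intro l C hC k hk γ
  haveI := finRoot hC
  have hk1 := hk.1 γ
  obtain ⟨p, hp1, hp2⟩ := half k hk1
    (fun b : {β : Root C // ip C β.1 γ.1 = 1} => ⟨sb hC γ b.1 (by rw [ip_comm hC]; exact b.2), by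
      rw [sb_val, ip_sub_left, ip_self, b.2]; norm_num⟩)
    (by
      rintro ⟨β, hβ⟩
      apply Subtype.ext
      apply Subtype.ext
      simp)
    (by
      rintro ⟨β, hβ⟩ h
      have h1 := congrArg (fun b : {β : Root C // ip C β.1 γ.1 = 1} => b.1.1) h
      simp only [sb_val] at h1
      have h2 : γ.1 = (2 : ℤ) • β.1 := by
        rw [two_smul]
        exact sub_eq_iff_eq_add.mp h1
      have h3 := γ.2
      rw [h2, ip_smul_left, ip_smul_right, ip_self] at h3
      norm_num at h3)
  refine ⟨fun i => (p i).1, ?_, fun i => (p i).2, ?_⟩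
  · intro i j h
    exact hp1 (Subtype.ext h)
  · intro i j h
    apply hp2 i j
    apply Subtype.ext
    apply Subtype.ext
    exact h

end Pool.Agent.H12.BCT
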