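import Pool.Agent.H77.BD.Targets

/-!
# The positive unipotent group and a simple root

Row UIA of the page `H77_BDE.md`.
-/

set_option autoImplicit false

open Set Matrix Pool.Agent.H77.BC Pool.Agent.H77.BD

namespace Pool.Agent.H12.BCT

variable {l : ℕ} {C : Matrix (Fin l) (Fin l) ℤ} {F Γ : Type} [Field F] [Group Γ]
  {x : Root C → F → Γ} {τ : (Fin l → Fˣ) →* Γ}

theorem x_zero (h : CD x τ) (β : Root C) : x β 0 = 1 := by
  have h1 := h.add β 0 0
  rw [add_zero] at h1
  exact (mul_eq_left.mp h1.symm)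

theorem x_inv (h : CD x τ) (β : Root C) (t : F) : (x β t)⁻¹ = x β (-t) := by
  rw [inv_eq_iff_mul_eq_one, ← h.add, add_neg_cancel, x_zero h]

/-- a positive root which vanishes outside of `i` is simple -/
theorem eq_si (hC : Cartan C) (β : Root C) (hp : IsPos β) (i : Fin l)
    (h0 : ∀ j, j ≠ i → β.1 j = 0) : β.1 = si i := by
  have e : β.1 = β.1 i • si i := by
    funext j
    by_cases hj : j = i
    · subst hj
      simp [si]
    · rw [h0 j hj]
      simp [si, Pi.single_eq_of_ne hj]
  have h1 := β.2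
  rw [e, ip_smul_left, ip_smul_right, ip_si_si, hC.diag] at h1
  have h2 := hp i
  have h3 : β.1 i = 1 := by nlinarith
  rw [e, h3, one_smul]

/-- conjugation of the elements of a subgroup generated by root elements -/
theorem conj_mem (h : CD x τ) (p : Root C → Prop) (ρ : Root C)
    (h2 : ∀ β, p β → β.1 ≠ -ρ.1) (hC : Cartan C)
    (h1 : ∀ β δ : Root C, p β → δ.1 = ρ.1 + β.1 → p δ) (s : F) (u : Γ) (hu : u ∈ Ug x p) :
    x ρ s * u * x ρ (-s) ∈ Ug x p := by
  rw [← x_inv h]
  unfold Ug at hu ⊢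
  induction hu using Subgroup.closure_induction with
  | mem g hg =>
    obtain ⟨β, t, hβ, rfl⟩ := hg
    have h3 := neg_one_le_ip hC ρ β (h2 β hβ)
    by_cases h4 : ip C ρ.1 β.1 = -1
    · have h5 := h.com ρ β (ad hC ρ β h4) rfl s t
      rw [h5]
      have e : x (ad hC ρ β h4) (↑(eps C ρ.1 β.1) * s * t) * (x β t * x ρ s) * (x ρ s)⁻¹ =
        x (ad hC ρ β h4) (↑(eps C ρ.1 β.1) * s * t) * x β t := by group
      rw [e]
      refine Subgroup.mul_mem _ (Subgroup.subset_closure ⟨_, _, h1 β _ hβ rfl, rfl⟩)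
        (Subgroup.subset_closure ⟨_, _, hβ, rfl⟩)
    · have h5 := h.cmm ρ β (by omega) s t
      rw [h5, mul_inv_cancel_right]
      exact Subgroup.subset_closure ⟨_, _, hβ, rfl⟩
  | one => rw [mul_one, mul_inv_cancel]; exact Subgroup.one_mem _
  | mul a b _ _ ha hb =>
    have e : x ρ s * (a * b) * (x ρ s)⁻¹ =
      (x ρ s * a * (x ρ s)⁻¹) * (x ρ s * b * (x ρ s)⁻¹) := by group
    rw [e]
    exact Subgroup.mul_mem _ ha hb
  | inv a _ ha =>
    have e : x ρ s * a⁻¹ * (x ρ s)⁻¹ = (x ρ s * a * (x ρ s)⁻¹)⁻¹ := by group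
    rw [e]
    exact Subgroup.inv_mem _ ha

/-- UIA: the positive unipotent group and a simple root. -/
theorem pf_UIA (hPOS : T_POS) : T_UIA := by
  intro l C hC F Γ _ _ x τ h i
  have c1 : ∀ s : F, ∀ u ∈ Ug x (fun β => IsPos β ∧ β.1 ≠ si i),
      x (sr hC i) s * u * x (sr hC i) (-s) ∈ Ug x (fun β => IsPos β ∧ β.1 ≠ si i) := by
    refine conj_mem h _ (sr hC i) ?_ hC ?_
    · rintro β ⟨hp, hn⟩ he
      have h1 := hp i
      rw [he] at h1
      simp [si] at h1
    · rintro β δ ⟨hp, hn⟩ hd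
      refine ⟨?_, ?_⟩
      · intro j
        rw [hd, Pi.add_apply, sr_val]
        have h1 := hp j
        have h2 : (0 : ℤ) ≤ (si i : Fin l → ℤ) j := by
          unfold si
          by_cases hj : j = i
          · subst hj; simp
          · rw [Pi.single_eq_of_ne hj]
        omega
      · intro he
        rw [hd, sr_val] at he
        exact root_ne_zero β (add_eq_left.mp he)
  have c2 : ∀ s : F, ∀ u ∈ Ug x (fun β => IsPos β ∧ β.1 ≠ si i),
      x (ng (sr hC i)) s * u * x (ng (sr hC i)) (-s) ∈ Ug x (fun β => IsPos β ∧ β.1 ≠ si i) := by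
    refine conj_mem h _ (ng (sr hC i)) ?_ hC ?_
    · rintro β ⟨hp, hn⟩ he
      apply hn
      rw [he, ng_val, neg_neg, sr_val]
    · rintro β δ ⟨hp, hn⟩ hd
      have hne : ∀ j, j ≠ i → δ.1 j = β.1 j := by
        intro j hj
        rw [hd, Pi.add_apply, ng_val, sr_val, Pi.neg_apply]
        unfold si
        rw [Pi.single_eq_of_ne hj]
        ring
      refine ⟨?_, ?_⟩
      · rcases (hPOS hC).1 δ with h1 | h1
        · exact h1
        · exfalso
          apply hn
          refine eq_si hC β hp i ?_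
          intro j hj
          have h2 := h1 j
          rw [hne j hj] at h2
          exact le_antisymm h2 (hp j)
      · intro he
        have e2 : β.1 = (2 : ℤ) • si i := by
          rw [hd, ng_val, sr_val] at he
          have : β.1 = si i + si i := by
            rw [neg_add_eq_iff_eq_add] at he
            exact he
          rw [this, two_smul]
        have h1 := β.2
        rw [e2, ip_smul_left, ip_smul_right, ip_si_si, hC.diag] at h1
        norm_num at h1
  refine ⟨?_, fun u hu t => c2 t u hu⟩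
  intro u hu
  change u ∈ Subgroup.closure _ at hu
  induction hu using Subgroup.closure_induction with
  | mem g hg =>
    obtain ⟨β, t, hβ, rfl⟩ := hg
    by_cases hb : β.1 = si i
    · refine ⟨1, Subgroup.one_mem _, t, ?_⟩
      rw [one_mul]
      congr 1
      exact Subtype.ext hb
    · refine ⟨x β t, Subgroup.subset_closure ⟨_, _, ⟨hβ, hb⟩, rfl⟩, 0, ?_⟩
      rw [x_zero h, mul_one]
  | one => exact ⟨1, Subgroup.one_mem _, 0, by rw [x_zero h, mul_one]⟩
  | mul a b _ _ ha hb =>
    obtain ⟨a', ha', s, rfl⟩ := ha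
    obtain ⟨b', hb', t, rfl⟩ := hb
    refine ⟨a' * (x (sr hC i) s * b' * x (sr hC i) (-s)), Subgroup.mul_mem _ ha' (c1 s b' hb'),
      s + t, ?_⟩
    rw [h.add, ← x_inv h]
    group
  | inv a _ ha =>
    obtain ⟨a', ha', s, rfl⟩ := ha
    refine ⟨x (sr hC i) (-s) * a'⁻¹ * x (sr hC i) (- -s), c1 (-s) _ (Subgroup.inv_mem _ ha'),
      -s, ?_⟩
    rw [neg_neg, ← x_inv h]
    group

end Pool.Agent.H12.BCT
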